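import Pool.Agent.H57.RainbowSat

set_option autoImplicit false

namespace Pool.Agent.Results.MP_e47ea7_co.MatchingGap

open Pool.Agent.H57.RW

/-- core lemma: if the maximum independent sets of a graph (size `s`) have no common vertex, then
the graph has at least `2 s` vertices -/
theorem core_lemma {α : Type*} [DecidableEq α] (E : Finset α) (C : α → α → Prop)
    (hC : ∀ x y, C x y → C y x) (s : ℕ)
    (hmax : ∀ S ⊆ E, (∀ x ∈ S, ∀ y ∈ S, x ≠ y → ¬ C x y) → S.card ≤ s)
    (M : Finset α) (hME : M ⊆ E) (hMi : ∀ x ∈ M, ∀ y ∈ M, x ≠ y → ¬ C x y) (hMs : M.card = s)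
    (hcore : ∀ z ∈ M, ∃ N ⊆ E, (∀ x ∈ N, ∀ y ∈ N, x ≠ y → ¬ C x y) ∧ N.card = s ∧ z ∉ N) :
    2 * s ≤ E.card := by
  classical
  choose! N hNE hNi hNs hNz using hcore
  set K : Finset α → Finset α := fun X => M.filter (fun y => ∃ x ∈ X, C x y) with hK
  have hKsub : ∀ X, K X ⊆ M := fun X => Finset.filter_subset _ _
  have hKmono : ∀ X Y, X ⊆ Y → K X ⊆ K Y := by
    intro X Y hXY y hy
    simp only [hK, Finset.mem_filter] at hy ⊢
    obtain ⟨h1, x, hx, h2⟩ := hy
    exact ⟨h1, x, hXY hx, h2⟩
  have hKunion : ∀ X Y, K (X ∪ Y) = K X ∪ K Y := by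
    intro X Y
    ext y
    simp only [hK, Finset.mem_filter, Finset.mem_union]
    constructor
    · rintro ⟨h1, x, hx | hx, h2⟩
      · exact Or.inl ⟨h1, x, hx, h2⟩
      · exact Or.inr ⟨h1, x, hx, h2⟩
    · rintro (⟨h1, x, hx, h2⟩ | ⟨h1, x, hx, h2⟩)
      · exact ⟨h1, x, Or.inl hx, h2⟩
      · exact ⟨h1, x, Or.inr hx, h2⟩
  -- (1)
  have h1 : ∀ X ⊆ E \ M, (∀ x ∈ X, ∀ y ∈ X, x ≠ y → ¬ C x y) → X.card ≤ (K X).card := by
    intro X hX hXi
    have hdisj : Disjoint X (M \ K X) := by
      rw [Finset.disjoint_left]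
      intro x hx hx'
      exact (Finset.mem_sdiff.mp (hX hx)).2 (Finset.mem_sdiff.mp hx').1
    have h2 := hmax (X ∪ (M \ K X)) (by
      apply Finset.union_subset
      · exact hX.trans Finset.sdiff_subset
      · exact Finset.sdiff_subset.trans hME) (by
      intro x hx y hy hxy
      have hno : ∀ x ∈ X, ∀ y ∈ M \ K X, ¬ C x y := by
        intro x hx y hy hc
        rw [Finset.mem_sdiff] at hy
        exact hy.2 (Finset.mem_filter.mpr ⟨hy.1, x, hx, hc⟩)
      rcases Finset.mem_union.mp hx with hx | hx <;> rcases Finset.mem_union.mp hy with hy | hy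
      · exact hXi x hx y hy hxy
      · exact hno x hx y hy
      · exact fun hc => hno y hy x hx (hC _ _ hc)
      · exact hMi x (Finset.mem_sdiff.mp hx).1 y (Finset.mem_sdiff.mp hy).1 hxy)
    rw [Finset.card_union_of_disjoint hdisj, Finset.card_sdiff_of_subset (hKsub X)] at h2
    have h3 := Finset.card_le_card (hKsub X)
    omega
  -- (2)
  have h2 : ∀ z ∈ M, (K (N z \ M)).card ≤ (N z \ M).card ∧ z ∈ K (N z \ M) := by
    intro z hz
    have hsub : K (N z \ M) ⊆ M \ N z := by
      intro y hy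
      simp only [hK, Finset.mem_filter, Finset.mem_sdiff] at hy
      obtain ⟨hyM, x, ⟨hxN, hxM⟩, hc⟩ := hy
      rw [Finset.mem_sdiff]
      refine ⟨hyM, fun hyN => ?_⟩
      refine hNi z hz x hxN y hyN ?_ hc
      rintro rfl
      exact hxM hyM
    have hcard : (M \ N z).card = (N z \ M).card := by
      have e1 := Finset.card_sdiff_add_card_inter M (N z)
      have e2 := Finset.card_sdiff_add_card_inter (N z) M
      rw [Finset.inter_comm] at e2
      have e3 := hNs z hz
      omega
    have hle := Finset.card_le_card hsub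
    have hge := h1 (N z \ M) (Finset.sdiff_subset_sdiff (hNE z hz) le_rfl) (by
      intro x hx y hy
      exact hNi z hz x (Finset.mem_sdiff.mp hx).1 y (Finset.mem_sdiff.mp hy).1)
    have heq : K (N z \ M) = M \ N z := Finset.eq_of_subset_of_card_le hsub (by omega)
    refine ⟨by omega, ?_⟩
    rw [heq, Finset.mem_sdiff]
    exact ⟨hz, hNz z hz⟩
  -- (3)
  have h3 : ∀ S ⊆ M, (K (S.biUnion fun z => N z \ M)).card ≤ (S.biUnion fun z => N z \ M).card := by
    intro S
    induction S using Finset.induction_on with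
    | empty => intro _; simp [hK]
    | insert z S hz ih =>
      intro hS
      have ih' := ih (fun x hx => hS (Finset.mem_insert_of_mem hx))
      have hzM : z ∈ M := hS (Finset.mem_insert_self _ _)
      rw [Finset.biUnion_insert, hKunion]
      set X := S.biUnion fun z => N z \ M
      set Q := N z \ M with hQ
      have e1 := Finset.card_union_add_card_inter (K Q) (K X)
      have e2 := Finset.card_union_add_card_inter Q X
      have e3 : (K (Q ∩ X)).card ≤ (K Q ∩ K X).card := Finset.card_le_card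
        (Finset.subset_inter (hKmono _ _ Finset.inter_subset_left)
          (hKmono _ _ Finset.inter_subset_right))
      have e4 := h1 (Q ∩ X) (Finset.inter_subset_left.trans
        (Finset.sdiff_subset_sdiff (hNE z hzM) le_rfl)) (by
        intro x hx y hy
        have hx' := (Finset.mem_inter.mp hx).1
        have hy' := (Finset.mem_inter.mp hy).1
        rw [hQ, Finset.mem_sdiff] at hx' hy'
        exact hNi z hzM x hx'.1 y hy'.1)
      have e5 := (h2 z hzM).1
      rw [← hQ] at e5
      omega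
  -- (4)
  have h4 : K (M.biUnion fun z => N z \ M) = M := by
    apply Finset.Subset.antisymm (hKsub _)
    intro z hz
    refine hKmono (N z \ M) _ ?_ (h2 z hz).2
    exact Finset.subset_biUnion_of_mem (fun z => N z \ M) hz
  have h5 := h3 M le_rfl
  rw [h4, hMs] at h5
  have h6 : (M.biUnion fun z => N z \ M) ⊆ E \ M := by
    apply Finset.biUnion_subset.mpr
    intro z hz
    exact Finset.sdiff_subset_sdiff (hNE z hz) le_rfl
  have h7 := Finset.card_le_card h6
  rw [Finset.card_sdiff_of_subset hME] at h7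
  have h8 := Finset.card_le_card hME
  omega


/-- the `i`-th edge of the matching graph -/
def me {r : ℕ} (i : Fin r) : Sym2 (Fin r × Bool) := s((i, false), (i, true))

lemma mem_edgeSet {r : ℕ} (x : Sym2 (Fin r × Bool)) :
    x ∈ (matchingGraph r).edgeSet ↔ ∃ i, x = me i := by
  induction x using Sym2.ind with
  | _ p q =>
    obtain ⟨i, a⟩ := p
    obtain ⟨j, b⟩ := q
    rw [SimpleGraph.mem_edgeSet]
    constructor
    · rintro ⟨h1, h2⟩
      simp only at h1 h2
      subst h1
      refine ⟨i, ?_⟩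
      cases a <;> cases b
      · exact absurd rfl h2
      · rfl
      · exact Sym2.eq_swap
      · exact absurd rfl h2
    · rintro ⟨k, hk⟩
      rw [me, Sym2.eq_iff] at hk
      rcases hk with ⟨h1, h2⟩ | ⟨h1, h2⟩
      · rw [Prod.mk.injEq] at h1 h2
        obtain ⟨rfl, rfl⟩ := h1
        obtain ⟨rfl, rfl⟩ := h2
        exact ⟨rfl, by simp⟩
      · rw [Prod.mk.injEq] at h1 h2
        obtain ⟨rfl, rfl⟩ := h1
        obtain ⟨rfl, rfl⟩ := h2
        exact ⟨rfl, by simp⟩

lemma me_inj {r : ℕ} {i j : Fin r} (h : me i = me j) : i = j := by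
  rw [me, me, Sym2.eq_iff] at h
  rcases h with ⟨h1, _⟩ | ⟨h1, _⟩
  · exact (Prod.mk.inj h1).1
  · exact (Prod.mk.inj h1).1

lemma map_me {r n : ℕ} (f : Fin r × Bool → Fin n) (i : Fin r) :
    (me i).map f = s(f (i, false), f (i, true)) := rfl

/-- criterion for a rainbow copy of the matching graph -/
lemma copy_iff {r n : ℕ} (G : SimpleGraph (Fin n)) (χ : Sym2 (Fin n) → ℕ)
    (f : Fin r × Bool → Fin n) : IsRainbowCopy (matchingGraph r) G χ f ↔
      Function.Injective f ∧ (∀ i, G.Adj (f (i, false)) (f (i, true))) ∧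
        ∀ i j, i ≠ j → χ s(f (i, false), f (i, true)) ≠ χ s(f (j, false), f (j, true)) := by
  constructor
  · rintro ⟨h1, h2, h3⟩
    refine ⟨h1, fun i => h2 _ _ ⟨rfl, by simp⟩, fun i j hij => ?_⟩
    have := h3 (me i) ((mem_edgeSet _).mpr ⟨i, rfl⟩) (me j) ((mem_edgeSet _).mpr ⟨j, rfl⟩)
      (fun h => hij (me_inj h))
    simpa only [map_me] using this
  · rintro ⟨h1, h2, h3⟩
    refine ⟨h1, ?_, ?_⟩
    · rintro ⟨i, a⟩ ⟨j, b⟩ ⟨hij, hab⟩
      simp only at hij hab
      subst hij
      cases a <;> cases b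
      · exact absurd rfl hab
      · exact h2 i
      · exact (h2 i).symm
      · exact absurd rfl hab
    · intro x hx y hy hxy
      rw [mem_edgeSet] at hx hy
      obtain ⟨i, rfl⟩ := hx
      obtain ⟨j, rfl⟩ := hy
      simp only [map_me]
      refine h3 i j ?_
      rintro rfl
      exact hxy rfl

/-- conflict of two edges: a common vertex or the same colour -/
def Conf {n : ℕ} (χ : Sym2 (Fin n) → ℕ) (x y : Sym2 (Fin n)) : Prop :=
  (∃ v, v ∈ x ∧ v ∈ y) ∨ χ x = χ y

lemma Conf_symm {n : ℕ} (χ : Sym2 (Fin n) → ℕ) (x y : Sym2 (Fin n)) (h : Conf χ x y) :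
    Conf χ y x := by
  rcases h with ⟨v, h1, h2⟩ | h
  · exact Or.inl ⟨v, h2, h1⟩
  · exact Or.inr h.symm

/-- rainbow matchings as sets of edges -/
def IsRM {n : ℕ} (G : SimpleGraph (Fin n)) (χ : Sym2 (Fin n) → ℕ) (M : Finset (Sym2 (Fin n))) :
    Prop :=
  (∀ x ∈ M, x ∈ G.edgeSet) ∧ ∀ x ∈ M, ∀ y ∈ M, x ≠ y → ¬ Conf χ x y

lemma copy_to_M {r n : ℕ} {G : SimpleGraph (Fin n)} {χ : Sym2 (Fin n) → ℕ}
    {f : Fin r × Bool → Fin n} (hf : IsRainbowCopy (matchingGraph r) G χ f) :
    IsRM G χ (Finset.univ.image fun i => (me i).map f) ∧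
      (Finset.univ.image fun i => (me i).map f).card = r := by
  have hinj : Function.Injective fun i : Fin r => (me i).map f :=
    fun i j h => me_inj (Sym2.map.injective hf.inj h)
  constructor
  · constructor
    · intro x hx
      simp only [Finset.mem_image, Finset.mem_univ, true_and] at hx
      obtain ⟨i, rfl⟩ := hx
      exact hf.adj _ _ ⟨rfl, by simp⟩
    · intro x hx y hy hxy
      simp only [Finset.mem_image, Finset.mem_univ, true_and] at hx hy
      obtain ⟨i, rfl⟩ := hx
      obtain ⟨j, rfl⟩ := hy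
      have hij : i ≠ j := by rintro rfl; exact hxy rfl
      rintro (⟨v, h1, h2⟩ | h)
      · rw [Sym2.mem_map] at h1 h2
        obtain ⟨p, hp, rfl⟩ := h1
        obtain ⟨q, hq, hpq⟩ := h2
        have := hf.inj hpq
        subst this
        simp only [me, Sym2.mem_iff] at hp hq
        rcases hp with rfl | rfl <;> rcases hq with hq | hq <;> simp at hq <;> exact hij hq
      · exact hf.rainbow _ ((mem_edgeSet _).mpr ⟨i, rfl⟩) _ ((mem_edgeSet _).mpr ⟨j, rfl⟩)
          (fun h => hij (me_inj h)) h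
  · rw [Finset.card_image_of_injective _ hinj]
    simp

lemma M_to_copy {r n : ℕ} {G : SimpleGraph (Fin n)} {χ : Sym2 (Fin n) → ℕ}
    {M : Finset (Sym2 (Fin n))} (hM : IsRM G χ M) (hr : M.card = r) :
    ∃ f, IsRainbowCopy (matchingGraph r) G χ f := by
  classical
  obtain ⟨φ⟩ : Nonempty (Fin r ≃ M) := by
    rw [← hr]
    exact ⟨M.equivFin.symm⟩
  have hout : ∀ x : Sym2 (Fin n), ∃ a b, x = s(a, b) := by
    intro x
    induction x using Sym2.ind with
    | _ a b => exact ⟨a, b, rfl⟩
  choose a b hab using hout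
  have hmem : ∀ x y, (x = y → False) → x ∈ M → y ∈ M → ∀ v, v ∈ x → v ∈ y → False := by
    intro x y hxy hx hy v h1 h2
    exact hM.2 x hx y hy hxy (Or.inl ⟨v, h1, h2⟩)
  have ha : ∀ x, a x ∈ x := by
    intro x
    have h := Sym2.mem_mk_left (a x) (b x)
    rwa [← hab x] at h
  have hb : ∀ x, b x ∈ x := by
    intro x
    have h := Sym2.mem_mk_right (a x) (b x)
    rwa [← hab x] at h
  have hne : ∀ x ∈ M, a x ≠ b x := by
    intro x hx h
    have h1 := hM.1 x hx
    rw [hab x, SimpleGraph.mem_edgeSet] at h1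
    exact h1.ne h
  refine ⟨fun p => if p.2 then b (φ p.1) else a (φ p.1), (copy_iff _ _ _).mpr ⟨?_, ?_, ?_⟩⟩
  · rintro ⟨i, s⟩ ⟨j, t⟩ h
    have hij : i = j := by
      by_contra hij
      have h1 : ((φ i : Sym2 (Fin n)) = φ j → False) := by
        intro h2
        exact hij (φ.injective (Subtype.ext h2))
      have h2 : ∀ (k : Fin r) (u : Bool),
          (if u = true then b (φ k) else a (φ k)) ∈ (φ k : Sym2 (Fin n)) := by
        intro k u
        cases u
        · exact ha _
        · exact hb _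
      have h3 := h2 i s
      have h4 := h2 j t
      simp only at h
      rw [← h] at h4
      exact hmem _ _ h1 (φ i).2 (φ j).2 _ h3 h4
    subst hij
    have h5 := hne _ (φ i).2
    cases s <;> cases t
    · rfl
    · simp only [Bool.false_eq_true, if_false, if_true] at h
      exact absurd h h5
    · simp only [Bool.false_eq_true, if_false, if_true] at h
      exact absurd h.symm h5
    · rfl
  · intro i
    have h1 := hM.1 _ (φ i).2
    rw [hab (φ i), SimpleGraph.mem_edgeSet] at h1
    simpa using h1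
  · intro i j hij
    have h1 := hM.2 _ (φ i).2 _ (φ j).2 (by
      intro h2
      exact hij (φ.injective (Subtype.ext h2)))
    simp only [Bool.false_eq_true, if_false, if_true]
    rw [← hab, ← hab]
    intro h
    exact h1 (Or.inr h)

/-- in a weakly saturated pair that is not complete, for every colour there is a rainbow matching
with `r - 1` edges avoiding the colour -/
lemma avoid {r n : ℕ} {G : SimpleGraph (Fin n)} {χ : Sym2 (Fin n) → ℕ}
    (hG : WeaklySat (matchingGraph r) G χ) (hne : G ≠ ⊤) (c₀ : ℕ) :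
    ∃ M : Finset (Sym2 (Fin n)), IsRM G χ M ∧ M.card + 1 = r ∧ ∀ x ∈ M, χ x ≠ c₀ := by
  classical
  obtain ⟨m, e, he, hran, hsat⟩ := hG
  have hm : 0 < m := by
    rcases Nat.eq_zero_or_pos m with h | h
    · subst h
      exfalso
      apply hne
      have : Gᶜ.edgeSet = ∅ := by
        rw [← hran]
        exact Set.range_eq_empty _
      rw [SimpleGraph.edgeSet_eq_empty] at this
      rw [← compl_compl G, this, compl_bot]
    · exact h
  set i₀ : Fin m := ⟨0, hm⟩ with hi₀
  obtain ⟨f, hf, x₀, hx₀, hx₀'⟩ := hsat (fun j => c₀ + j) (by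
    intro i j h
    simp only at h
    exact Fin.ext (by omega)) i₀
  obtain ⟨hM1, hM2⟩ := copy_to_M hf
  set M' := Finset.univ.image fun i => (me i).map f with hM'
  obtain ⟨k, rfl⟩ := (mem_edgeSet _).mp hx₀
  have hk : e i₀ ∈ M' := by
    rw [← hx₀', hM']
    exact Finset.mem_image_of_mem _ (Finset.mem_univ _)
  have hedge : ∀ x ∈ M', x ≠ e i₀ → x ∈ G.edgeSet := by
    intro x hx hx'
    have h1 := hM1.1 x hx
    rw [SimpleGraph.edgeSet_sup, SimpleGraph.edgeSet_fromEdgeSet] at h1
    rcases h1 with h1 | h1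
    · exact h1
    · exfalso
      obtain ⟨⟨j, hj, hj'⟩, _⟩ := h1
      have : j = i₀ := by
        apply Fin.ext
        have : (j : ℕ) ≤ 0 := hj
        simp [hi₀]; omega
      subst this
      exact hx' hj'.symm
  have hcol : ∀ x ∈ M', x ≠ e i₀ →
      Function.extend e (fun j : Fin m => c₀ + (j : ℕ)) χ x = χ x := by
    intro x hx hx'
    apply Function.extend_apply'
    rintro ⟨j, hj⟩
    have h1 := hedge x hx hx'
    have h2 : x ∈ Gᶜ.edgeSet := by
      rw [← hran]; exact ⟨j, hj⟩
    revert h1 h2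
    induction x using Sym2.ind with
    | _ a b =>
      intro h1 h2
      rw [SimpleGraph.mem_edgeSet] at h1 h2
      rw [SimpleGraph.compl_adj] at h2
      exact h2.2 h1
  have hcol0 : Function.extend e (fun j : Fin m => c₀ + (j : ℕ)) χ (e i₀) = c₀ := by
    rw [he.extend_apply]
    simp [hi₀]
  refine ⟨M'.erase (e i₀), ⟨?_, ?_⟩, ?_, ?_⟩
  · intro x hx
    rw [Finset.mem_erase] at hx
    exact hedge x hx.2 hx.1
  · intro x hx y hy hxy
    rw [Finset.mem_erase] at hx hy
    have h1 := hM1.2 x hx.2 y hy.2 hxy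
    unfold Conf at h1 ⊢
    rwa [hcol x hx.2 hx.1, hcol y hy.2 hy.1] at h1
  · rw [Finset.card_erase_of_mem hk, hM2]
    have : 0 < M'.card := Finset.card_pos.mpr ⟨_, hk⟩
    omega
  · intro x hx
    rw [Finset.mem_erase] at hx
    have h1 := hM1.2 x hx.2 (e i₀) hk hx.1
    intro h2
    apply h1
    right
    rw [hcol x hx.2 hx.1, hcol0, h2]

/-- number of edges of the complete graph -/
lemma top_card {n s : ℕ} (h : s + 1 ≤ n) : (s : ℕ∞) ≤ (⊤ : SimpleGraph (Fin n)).edgeSet.encard := by
  classical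
  have hn : 0 < n := by omega
  have hinj : Function.Injective (fun j : Fin s =>
      (s((⟨0, hn⟩ : Fin n), (⟨j + 1, by omega⟩ : Fin n)) : Sym2 (Fin n))) := by
    intro i j hij
    simp only [Sym2.eq_iff, Fin.mk.injEq] at hij
    apply Fin.ext
    omega
  have h1 : Set.range (fun j : Fin s =>
      (s((⟨0, hn⟩ : Fin n), (⟨j + 1, by omega⟩ : Fin n)) : Sym2 (Fin n)))
      ⊆ (⊤ : SimpleGraph (Fin n)).edgeSet := by
    rintro _ ⟨j, rfl⟩
    rw [SimpleGraph.mem_edgeSet, SimpleGraph.top_adj]
    intro h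
    simp only [Fin.mk.injEq] at h
    omega
  refine le_trans ?_ (Set.encard_le_encard h1)
  rw [← Set.image_univ, hinj.encard_image, Set.encard_univ]
  simp

lemma encard_ge {n k : ℕ} {G : SimpleGraph (Fin n)} {M : Finset (Sym2 (Fin n))}
    (h : ∀ x ∈ M, x ∈ G.edgeSet) (hk : k ≤ M.card) : (k : ℕ∞) ≤ G.edgeSet.encard := by
  have h1 : (M : Set (Sym2 (Fin n))) ⊆ G.edgeSet := h
  refine le_trans ?_ (Set.encard_le_encard h1)
  rw [Set.encard_coe_eq_coe_finsetCard]
  exact_mod_cast hk

theorem lower {r n : ℕ} (hr : 2 ≤ r) (hn : r + 1 ≤ n) {G : SimpleGraph (Fin n)}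
    {χ : Sym2 (Fin n) → ℕ} (hG : WeaklySat (matchingGraph r) G χ) :
    (r : ℕ∞) ≤ G.edgeSet.encard := by
  classical
  by_cases htop : G = ⊤
  · subst htop
    exact top_card hn
  · obtain ⟨M, hM, hMc, _⟩ := avoid hG htop 0
    obtain ⟨x, hx⟩ : M.Nonempty := Finset.card_pos.mp (by omega)
    obtain ⟨N, hN, hNc, hN2⟩ := avoid hG htop (χ x)
    have hxN : x ∉ N := fun h => hN2 x h rfl
    refine encard_ge (M := insert x N) ?_ ?_
    · intro y hy
      rcases Finset.mem_insert.mp hy with rfl | hy
      · exact hM.1 _ hx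
      · exact hN.1 _ hy
    · rw [Finset.card_insert_of_notMem hxN]
      omega

theorem lowerStar {r n : ℕ} (hn : 2 * r ≤ n + 1) (hr : 2 ≤ r) {G : SimpleGraph (Fin n)}
    {χ : Sym2 (Fin n) → ℕ} (hG : WeaklySat (matchingGraph r) G χ)
    (hfree : RainbowFree (matchingGraph r) G χ) :
    ((2 * (r - 1) : ℕ) : ℕ∞) ≤ G.edgeSet.encard := by
  classical
  by_cases htop : G = ⊤
  · subst htop
    exact top_card (by omega)
  · obtain ⟨M, hM, hMc, _⟩ := avoid hG htop 0
    have hfin : G.edgeSet.Finite := Set.toFinite _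
    set E := hfin.toFinset with hE
    have hEm : ∀ x, x ∈ E ↔ x ∈ G.edgeSet := fun x => hfin.mem_toFinset
    have key := core_lemma E (Conf χ) (Conf_symm χ) (r - 1) ?_ M ?_ hM.2 (by omega) ?_
    · exact encard_ge (M := E) (fun x hx => (hEm x).mp hx) key
    · intro S hS hSi
      by_contra hcon
      push Not at hcon
      obtain ⟨T, hTS, hTc⟩ := Finset.exists_subset_card_eq (s := S) (n := r) (by omega)
      exact hfree (M_to_copy (M := T) ⟨fun x hx => (hEm x).mp (hS (hTS hx)),
        fun x hx y hy => hSi x (hTS hx) y (hTS hy)⟩ hTc)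
    · intro x hx
      exact (hEm x).mpr (hM.1 x hx)
    · intro z _
      obtain ⟨N, hN, hNc, hN2⟩ := avoid hG htop (χ z)
      exact ⟨N, fun x hx => (hEm x).mpr (hN.1 x hx), hN.2, by omega, fun h => hN2 z h rfl⟩


/-! ### upper bounds -/

/-- glue an edge `x y` and a family of `s` edges -/
def glue {n s : ℕ} (x y : Fin n) (g : Fin s × Bool → Fin n) : Fin (s + 1) × Bool → Fin n :=
  fun p => Fin.cases (if p.2 then y else x) (fun j => g (j, p.2)) p.1

lemma glue_zero_false {n s : ℕ} (x y : Fin n) (g : Fin s × Bool → Fin n) :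
    glue x y g (0, false) = x := rfl

lemma glue_zero_true {n s : ℕ} (x y : Fin n) (g : Fin s × Bool → Fin n) :
    glue x y g (0, true) = y := rfl

lemma glue_succ {n s : ℕ} (x y : Fin n) (g : Fin s × Bool → Fin n) (j : Fin s) (b : Bool) :
    glue x y g (j.succ, b) = g (j, b) := rfl

lemma glue_inj {n s : ℕ} {x y : Fin n} {g : Fin s × Bool → Fin n} (hxy : x ≠ y)
    (hg : Function.Injective g) (hx : ∀ p, g p ≠ x) (hy : ∀ p, g p ≠ y) :
    Function.Injective (glue x y g) := by
  rintro ⟨i, a⟩ ⟨j, b⟩ h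
  induction i using Fin.cases with
  | zero =>
    induction j using Fin.cases with
    | zero =>
      cases a <;> cases b
      · rfl
      · exact absurd h hxy
      · exact absurd h.symm hxy
      · rfl
    | succ j =>
      rw [glue_succ] at h
      cases a
      · exact absurd h.symm (hx _)
      · exact absurd h.symm (hy _)
  | succ i =>
    induction j using Fin.cases with
    | zero =>
      rw [glue_succ] at h
      cases b
      · exact absurd h (hx _)
      · exact absurd h (hy _)
    | succ j =>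
      rw [glue_succ, glue_succ] at h
      have := hg h
      rw [Prod.mk.injEq] at this
      rw [this.1, this.2]

/-- two-phase criterion for weak saturation -/
theorem two_phase {n s : ℕ} (G : SimpleGraph (Fin n)) (χ : Sym2 (Fin n) → ℕ)
    (W : Finset (Fin n)) (hW : ∀ u ∈ W, ∀ v, ¬ G.Adj u v)
    (hcard : 2 * s + 1 ≤ W.card)
    (hG : ∀ c : ℕ, ∃ g : Fin s × Bool → Fin n, Function.Injective g ∧
      (∀ i, G.Adj (g (i, false)) (g (i, true))) ∧
      (∀ i, χ s(g (i, false), g (i, true)) ≠ c) ∧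
      ∀ i j, i ≠ j → χ s(g (i, false), g (i, true)) ≠ χ s(g (j, false), g (j, true))) :
    WeaklySat (matchingGraph (s + 1)) G χ := by
  classical
  set S1 : Finset (Sym2 (Fin n)) := Finset.univ.filter
    (fun x => x ∈ Gᶜ.edgeSet ∧ ∀ v ∈ x, v ∈ W) with hS1
  set S2 : Finset (Sym2 (Fin n)) := Finset.univ.filter
    (fun x => x ∈ Gᶜ.edgeSet ∧ ¬ ∀ v ∈ x, v ∈ W) with hS2
  have hS1m : ∀ x, x ∈ S1 ↔ x ∈ Gᶜ.edgeSet ∧ ∀ v ∈ x, v ∈ W := by
    intro x; simp [hS1]
  have hS2m : ∀ x, x ∈ S2 ↔ x ∈ Gᶜ.edgeSet ∧ ¬ ∀ v ∈ x, v ∈ W := by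
    intro x; simp only [hS2, Finset.mem_filter, Finset.mem_univ, true_and]
  -- enumerations
  obtain ⟨a, e1, he1, hr1⟩ : ∃ (a : ℕ) (e1 : Fin a → Sym2 (Fin n)), Function.Injective e1 ∧
      ∀ x, x ∈ S1 ↔ ∃ i, e1 i = x :=
    ⟨S1.card, fun i => (S1.equivFin.symm i : Sym2 (Fin n)),
      fun i j h => S1.equivFin.symm.injective (Subtype.ext h), fun x =>
        ⟨fun hx => ⟨S1.equivFin ⟨x, hx⟩, by simp⟩, by rintro ⟨i, rfl⟩; exact (S1.equivFin.symm i).2⟩⟩
  obtain ⟨b, e2, he2, hr2⟩ : ∃ (b : ℕ) (e2 : Fin b → Sym2 (Fin n)), Function.Injective e2 ∧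
      ∀ x, x ∈ S2 ↔ ∃ i, e2 i = x :=
    ⟨S2.card, fun i => (S2.equivFin.symm i : Sym2 (Fin n)),
      fun i j h => S2.equivFin.symm.injective (Subtype.ext h), fun x =>
        ⟨fun hx => ⟨S2.equivFin ⟨x, hx⟩, by simp⟩, by rintro ⟨i, rfl⟩; exact (S2.equivFin.symm i).2⟩⟩
  set e : Fin (a + b) → Sym2 (Fin n) := Fin.append e1 e2 with he
  have hel : ∀ i : Fin a, e (Fin.castAdd b i) = e1 i := fun i => Fin.append_left e1 e2 i
  have her : ∀ i : Fin b, e (Fin.natAdd a i) = e2 i := fun i => Fin.append_right e1 e2 i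
  have hinj : Function.Injective e := by
    intro i j hij
    induction i using Fin.addCases with
    | left i =>
      induction j using Fin.addCases with
      | left j => rw [hel, hel] at hij; rw [he1 hij]
      | right j =>
        rw [hel, her] at hij
        exfalso
        have h1 := (hS1m _).mp ((hr1 _).mpr ⟨i, rfl⟩)
        have h2 := (hS2m _).mp ((hr2 _).mpr ⟨j, rfl⟩)
        rw [hij] at h1
        exact h2.2 h1.2
    | right i =>
      induction j using Fin.addCases with
      | left j =>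
        rw [hel, her] at hij
        exfalso
        have h1 := (hS1m _).mp ((hr1 _).mpr ⟨j, rfl⟩)
        have h2 := (hS2m _).mp ((hr2 _).mpr ⟨i, rfl⟩)
        rw [← hij] at h1
        exact h2.2 h1.2
      | right j => rw [her, her] at hij; rw [he2 hij]
  have hran : Set.range e = Gᶜ.edgeSet := by
    ext x
    constructor
    · rintro ⟨i, rfl⟩
      induction i using Fin.addCases with
      | left i => rw [hel]; exact ((hS1m _).mp ((hr1 _).mpr ⟨i, rfl⟩)).1
      | right i => rw [her]; exact ((hS2m _).mp ((hr2 _).mpr ⟨i, rfl⟩)).1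
    · intro hx
      by_cases h : ∀ v ∈ x, v ∈ W
      · obtain ⟨i, hi⟩ := (hr1 x).mp ((hS1m x).mpr ⟨hx, h⟩)
        exact ⟨Fin.castAdd b i, by rw [hel, hi]⟩
      · obtain ⟨i, hi⟩ := (hr2 x).mp ((hS2m x).mpr ⟨hx, h⟩)
        exact ⟨Fin.natAdd a i, by rw [her, hi]⟩
  refine ⟨a + b, e, hinj, hran, ?_⟩
  intro c hc i
  have hext : ∀ j, Function.extend e c χ (e j) = c j := fun j => hinj.extend_apply c χ j
  have hextG : ∀ u v, G.Adj u v → Function.extend e c χ s(u, v) = χ s(u, v) := by
    intro u v huv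
    apply Function.extend_apply'
    rintro ⟨j, hj⟩
    have h2 : s(u, v) ∈ Gᶜ.edgeSet := by rw [← hran]; exact ⟨j, hj⟩
    rw [SimpleGraph.mem_edgeSet, SimpleGraph.compl_adj] at h2
    exact h2.2 huv
  have hne : ∀ x y, s(x, y) ∈ Gᶜ.edgeSet → x ≠ y := by
    intro x y h
    rw [SimpleGraph.mem_edgeSet, SimpleGraph.compl_adj] at h
    exact h.1
  -- finish: from `g` build the copy
  have finish : ∀ x y : Fin n, e i = s(x, y) → ∀ g : Fin s × Bool → Fin n,
      Function.Injective g → (∀ p, g p ≠ x) → (∀ p, g p ≠ y) →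
      (∀ j, (G ⊔ SimpleGraph.fromEdgeSet {x | ∃ j ≤ i, e j = x}).Adj (g (j, false)) (g (j, true))) →
      (∀ j, Function.extend e c χ s(g (j, false), g (j, true)) ≠ c i) →
      (∀ j k, j ≠ k → Function.extend e c χ s(g (j, false), g (j, true)) ≠
        Function.extend e c χ s(g (k, false), g (k, true))) →
      ∃ f : Fin (s + 1) × Bool → Fin n,
        IsRainbowCopy (matchingGraph (s + 1))
          (G ⊔ SimpleGraph.fromEdgeSet {x | ∃ j ≤ i, e j = x}) (Function.extend e c χ) f ∧
        ∃ x ∈ (matchingGraph (s + 1)).edgeSet, x.map f = e i := by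
    intro x y hxy g hg hgx hgy hadj hcol hcol2
    have hxy' : x ≠ y := hne x y (by rw [← hxy, ← hran]; exact ⟨i, rfl⟩)
    have hci : Function.extend e c χ s(x, y) = c i := by rw [← hxy, hext]
    refine ⟨glue x y g, (copy_iff _ _ _).mpr ⟨glue_inj hxy' hg hgx hgy, ?_, ?_⟩, me 0,
      (mem_edgeSet _).mpr ⟨0, rfl⟩, ?_⟩
    · intro j
      induction j using Fin.cases with
      | zero =>
        rw [glue_zero_false, glue_zero_true, SimpleGraph.sup_adj, SimpleGraph.fromEdgeSet_adj]
        exact Or.inr ⟨⟨i, le_rfl, hxy⟩, hxy'⟩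
      | succ j => rw [glue_succ, glue_succ]; exact hadj j
    · intro j k hjk
      induction j using Fin.cases with
      | zero =>
        induction k using Fin.cases with
        | zero => exact absurd rfl hjk
        | succ k =>
          rw [glue_zero_false, glue_zero_true, glue_succ, glue_succ, hci]
          exact (hcol k).symm
      | succ j =>
        induction k using Fin.cases with
        | zero =>
          rw [glue_zero_false, glue_zero_true, glue_succ, glue_succ, hci]
          exact hcol j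
        | succ k =>
          rw [glue_succ, glue_succ, glue_succ, glue_succ]
          exact hcol2 j k (fun h => hjk (by rw [h]))
    · rw [map_me, glue_zero_false, glue_zero_true, hxy]
  induction i using Fin.addCases with
  | left i =>
    -- first phase
    obtain ⟨g, hg1, hg2, hg3, hg4⟩ := hG (c (Fin.castAdd b i))
    obtain ⟨h1, h2⟩ := (hS1m _).mp ((hr1 _).mpr ⟨i, rfl⟩)
    obtain ⟨x, y, hxy⟩ : ∃ x y, e1 i = s(x, y) := by
      induction e1 i using Sym2.ind with
      | _ x y => exact ⟨x, y, rfl⟩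
    rw [hxy] at h1 h2
    have hgW : ∀ p, g p ∉ W := by
      rintro ⟨j, u⟩ hp
      cases u
      · exact hW _ hp _ (hg2 j)
      · exact hW _ hp _ (hg2 j).symm
    refine finish x y (by rw [hel, hxy]) g hg1 ?_ ?_ ?_ ?_ ?_
    · intro p hp
      exact hgW p (by rw [hp]; exact h2 x (Sym2.mem_mk_left _ _))
    · intro p hp
      exact hgW p (by rw [hp]; exact h2 y (Sym2.mem_mk_right _ _))
    · intro j
      rw [SimpleGraph.sup_adj]
      exact Or.inl (hg2 j)
    · intro j
      rw [hextG _ _ (hg2 j)]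
      exact hg3 j
    · intro j k hjk
      rw [hextG _ _ (hg2 j), hextG _ _ (hg2 k)]
      exact hg4 j k hjk
  | right i =>
    obtain ⟨h1, h2⟩ := (hS2m _).mp ((hr2 _).mpr ⟨i, rfl⟩)
    obtain ⟨x, y, hxy⟩ : ∃ x y, e2 i = s(x, y) := by
      induction e2 i using Sym2.ind with
      | _ x y => exact ⟨x, y, rfl⟩
    rw [hxy] at h1 h2
    -- the vertices of `W` that are not on the edge
    have hcard2 : 2 * s ≤ (W \ {x, y}).card := by
      have h3 : ∃ z, (W ∩ {x, y}) ⊆ {z} := by
        by_cases hx : x ∈ W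
        · have hy : y ∉ W := by
            intro hy
            apply h2
            intro v hv
            rw [Sym2.mem_iff] at hv
            rcases hv with rfl | rfl
            · exact hx
            · exact hy
          refine ⟨x, ?_⟩
          intro v hv
          simp only [Finset.mem_inter, Finset.mem_insert, Finset.mem_singleton] at hv ⊢
          rcases hv.2 with h | h
          · exact h
          · rw [h] at hv; exact absurd hv.1 hy
        · refine ⟨y, ?_⟩
          intro v hv
          simp only [Finset.mem_inter, Finset.mem_insert, Finset.mem_singleton] at hv ⊢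
          rcases hv.2 with h | h
          · rw [h] at hv; exact absurd hv.1 hx
          · exact h
      obtain ⟨z, hz⟩ := h3
      have h4 := Finset.card_le_card hz
      have h5 := Finset.card_sdiff_add_card_inter W {x, y}
      rw [Finset.card_singleton] at h4
      omega
    obtain ⟨φ⟩ : Nonempty (Fin s × Bool ↪ (W \ {x, y} : Finset (Fin n))) := by
      apply Function.Embedding.nonempty_of_card_le
      simp only [Fintype.card_prod, Fintype.card_fin, Fintype.card_bool, Fintype.card_coe]
      omega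
    have hφ : ∀ p, (φ p : Fin n) ∈ W ∧ (φ p : Fin n) ≠ x ∧ (φ p : Fin n) ≠ y := by
      intro p
      have := (φ p).2
      simp only [Finset.mem_sdiff, Finset.mem_insert, Finset.mem_singleton, not_or] at this
      exact ⟨this.1, this.2.1, this.2.2⟩
    have hφne : ∀ j, (φ (j, false) : Fin n) ≠ φ (j, true) := by
      intro j h
      have := φ.injective (Subtype.ext h)
      simp at this
    have hidx : ∀ j, ∃ k : Fin a, e1 k = s((φ (j, false) : Fin n), (φ (j, true) : Fin n)) := by
      intro j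
      rw [← hr1, hS1m, SimpleGraph.mem_edgeSet, SimpleGraph.compl_adj]
      refine ⟨⟨hφne j, hW _ (hφ _).1 _⟩, ?_⟩
      intro v hv
      rw [Sym2.mem_iff] at hv
      rcases hv with rfl | rfl
      · exact (hφ _).1
      · exact (hφ _).1
    choose k hk using hidx
    have hek : ∀ j, e (Fin.castAdd b (k j)) = s((φ (j, false) : Fin n), (φ (j, true) : Fin n)) := by
      intro j; rw [hel, hk]
    refine finish x y (by rw [her, hxy]) (fun p => (φ p : Fin n)) ?_ ?_ ?_ ?_ ?_ ?_
    · intro p q hpq
      exact φ.injective (Subtype.ext hpq)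
    · intro p; exact (hφ p).2.1
    · intro p; exact (hφ p).2.2
    · intro j
      rw [SimpleGraph.sup_adj, SimpleGraph.fromEdgeSet_adj]
      refine Or.inr ⟨⟨Fin.castAdd b (k j), ?_, hek j⟩, hφne j⟩
      rw [Fin.le_def]
      simp only [Fin.val_castAdd, Fin.val_natAdd]
      have := (k j).2
      omega
    · intro j
      rw [← hek, hext]
      intro h
      have := congrArg Fin.val (hc h)
      simp only [Fin.val_castAdd, Fin.val_natAdd] at this
      have := (k j).2
      omega
    · intro j l hjl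
      rw [← hek, ← hek, hext, hext]
      intro h
      have h1 := hc h
      rw [Fin.castAdd_inj] at h1
      apply hjl
      have h2 : s((φ (j, false) : Fin n), (φ (j, true) : Fin n)) =
          s((φ (l, false) : Fin n), (φ (l, true) : Fin n)) := by
        rw [← hk, ← hk, h1]
      rw [Sym2.eq_iff] at h2
      rcases h2 with ⟨h3, _⟩ | ⟨h3, _⟩
      · have := φ.injective (Subtype.ext h3)
        exact (Prod.mk.inj this).1
      · have := φ.injective (Subtype.ext h3)
        exact (Prod.mk.inj this).1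

/-! ### the two constructions -/

/-- the colour of `u v` is `u + v` -/
def sumCol (n : ℕ) : Sym2 (Fin n) → ℕ :=
  Sym2.lift ⟨fun u v => (u : ℕ) + (v : ℕ), fun _ _ => add_comm _ _⟩

lemma sumCol_mk {n : ℕ} (u v : Fin n) : sumCol n s(u, v) = (u : ℕ) + v := rfl

/-- a matching with `k` edges on the first `2 k` vertices -/
def G1 (n k : ℕ) : SimpleGraph (Fin n) where
  Adj u v := u ≠ v ∧ (u : ℕ) / 2 = (v : ℕ) / 2 ∧ (u : ℕ) < 2 * k ∧ (v : ℕ) < 2 * k
  symm := ⟨fun _ _ h => ⟨h.1.symm, h.2.1.symm, h.2.2.2, h.2.2.1⟩⟩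
  loopless := ⟨fun _ h => h.1 rfl⟩

/-- `k` disjoint paths with two edges on the first `3 k` vertices -/
def G2 (n k : ℕ) : SimpleGraph (Fin n) where
  Adj u v := u ≠ v ∧ (u : ℕ) / 3 = (v : ℕ) / 3 ∧ ((u : ℕ) % 3 = 1 ∨ (v : ℕ) % 3 = 1) ∧
    (u : ℕ) < 3 * k ∧ (v : ℕ) < 3 * k
  symm := ⟨fun _ _ h => ⟨h.1.symm, h.2.1.symm, h.2.2.1.symm, h.2.2.2.2, h.2.2.2.1⟩⟩
  loopless := ⟨fun _ h => h.1 rfl⟩

lemma card_W (n k : ℕ) :
    (Finset.univ.filter (fun v : Fin n => k ≤ (v : ℕ))).card = n - k := by
  classical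
  have h1 : (Finset.univ.filter (fun v : Fin n => k ≤ (v : ℕ))).card =
      ((Finset.univ.filter (fun v : Fin n => k ≤ (v : ℕ))).map Fin.valEmbedding).card := by
    rw [Finset.card_map]
  rw [h1]
  have h2 : (Finset.univ.filter (fun v : Fin n => k ≤ (v : ℕ))).map Fin.valEmbedding =
      Finset.Ico k n := by
    ext x
    simp only [Finset.mem_map, Finset.mem_filter, Finset.mem_univ, true_and, Fin.valEmbedding_apply,
      Finset.mem_Ico]
    constructor
    · rintro ⟨v, hv, rfl⟩
      exact ⟨hv, v.2⟩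
    · rintro ⟨h3, h4⟩
      exact ⟨⟨x, h4⟩, h3, rfl⟩
  rw [h2, Nat.card_Ico]

theorem sat1 {n s : ℕ} (hn : 4 * s + 3 ≤ n) :
    WeaklySat (matchingGraph (s + 1)) (G1 n (s + 1)) (sumCol n) := by
  classical
  apply two_phase _ _ (Finset.univ.filter (fun v : Fin n => 2 * (s + 1) ≤ (v : ℕ)))
  · intro u hu v h
    simp only [Finset.mem_filter, Finset.mem_univ, true_and] at hu
    have := h.2.2.1
    omega
  · rw [card_W]; omega
  · intro c
    obtain ⟨p, hp⟩ : ∃ p : Fin (s + 1), ∀ q : Fin (s + 1), 4 * (q : ℕ) + 1 = c → q = p := by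
      by_cases h : ∃ q : Fin (s + 1), 4 * (q : ℕ) + 1 = c
      · obtain ⟨q, hq⟩ := h
        refine ⟨q, fun q' hq' => Fin.ext (by omega)⟩
      · push Not at h
        exact ⟨0, fun q hq => absurd hq (h q)⟩
    refine ⟨fun x => ⟨2 * ((p.succAbove x.1 : Fin (s + 1)) : ℕ) + (if x.2 then 1 else 0), ?_⟩,
      ?_, ?_, ?_, ?_⟩
    · have := (p.succAbove x.1).2
      split_ifs <;> omega
    · rintro ⟨i, a⟩ ⟨j, b⟩ h
      simp only [Fin.mk.injEq] at h
      have h1 : (p.succAbove i : ℕ) = (p.succAbove j : ℕ) := by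
        split_ifs at h <;> omega
      have h2 : i = j := Fin.succAbove_right_injective (Fin.ext h1)
      subst h2
      cases a <;> cases b <;> simp at h ⊢
    · intro i
      have := (p.succAbove i).2
      refine ⟨?_, ?_, ?_, ?_⟩
      · intro h
        simp at h
      · simp only [Bool.false_eq_true, if_false, if_true]
        omega
      · simp only [Bool.false_eq_true, if_false]
        omega
      · simp only [if_true]
        omega
    · intro i h
      rw [sumCol_mk] at h
      simp only [Bool.false_eq_true, if_false, if_true] at h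
      exact Fin.succAbove_ne p i (hp _ (by omega))
    · intro i j hij h
      rw [sumCol_mk, sumCol_mk] at h
      simp only [Bool.false_eq_true, if_false, if_true] at h
      exact hij (Fin.succAbove_right_injective (p := p) (Fin.ext (by omega)))

theorem sat2 {n s : ℕ} (hn : 5 * s + 1 ≤ n) :
    WeaklySat (matchingGraph (s + 1)) (G2 n s) (sumCol n) := by
  classical
  apply two_phase _ _ (Finset.univ.filter (fun v : Fin n => 3 * s ≤ (v : ℕ)))
  · intro u hu v h
    simp only [Finset.mem_filter, Finset.mem_univ, true_and] at hu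
    have := h.2.2.2.1
    omega
  · rw [card_W]; omega
  · intro c
    refine ⟨fun x => ⟨3 * (x.1 : ℕ) + (if x.2 then (if 6 * (x.1 : ℕ) + 1 = c then 2 else 0) else 1),
      ?_⟩, ?_, ?_, ?_, ?_⟩
    · have := x.1.2
      split_ifs <;> omega
    · rintro ⟨i, a⟩ ⟨j, b⟩ h
      simp only [Fin.mk.injEq] at h
      have h1 : (i : ℕ) = (j : ℕ) := by
        split_ifs at h <;> omega
      have h2 : i = j := Fin.ext h1
      subst h2
      cases a <;> cases b
      · rfl
      · simp only [Bool.false_eq_true, if_false, if_true] at h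
        split_ifs at h <;> omega
      · simp only [Bool.false_eq_true, if_false, if_true] at h
        split_ifs at h <;> omega
      · rfl
    · intro i
      have := i.2
      simp only [Bool.false_eq_true, if_false, if_true]
      refine ⟨?_, ?_, ?_, ?_, ?_⟩
      · intro h
        simp only [Fin.mk.injEq] at h
        split_ifs at h <;> omega
      · simp only
        split_ifs <;> omega
      · left
        simp only
        omega
      · simp only
        omega
      · simp only
        split_ifs <;> omega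
    · intro i h
      rw [sumCol_mk] at h
      simp only [Bool.false_eq_true, if_false, if_true] at h
      split_ifs at h <;> omega
    · intro i j hij h
      rw [sumCol_mk, sumCol_mk] at h
      simp only [Bool.false_eq_true, if_false, if_true] at h
      apply hij
      apply Fin.ext
      split_ifs at h <;> omega

theorem free2 {n s : ℕ} : RainbowFree (matchingGraph (s + 1)) (G2 n s) (sumCol n) := by
  rintro ⟨f, hf⟩
  rw [copy_iff] at hf
  obtain ⟨hinj, hadj, _⟩ := hf
  obtain ⟨i, j, hij, h⟩ := Fintype.exists_ne_map_eq_of_card_lt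
    (fun i : Fin (s + 1) => (⟨(f (i, false) : ℕ) / 3, by
      have := (hadj i).2.2.2.1
      omega⟩ : Fin s)) (by simp)
  simp only [Fin.mk.injEq] at h
  have hi := hadj i
  have hj := hadj j
  -- the centre of the path belongs to both edges
  have hc : ∀ k : Fin (s + 1), ∃ b : Bool, (f (k, b) : ℕ) = 3 * ((f (k, false) : ℕ) / 3) + 1 := by
    intro k
    obtain ⟨_, h1, h2, _, _⟩ := hadj k
    rcases h2 with h2 | h2
    · exact ⟨false, by omega⟩
    · exact ⟨true, by omega⟩
  obtain ⟨b, hb⟩ := hc i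
  obtain ⟨b', hb'⟩ := hc j
  have : f (i, b) = f (j, b') := Fin.ext (by omega)
  exact hij (Prod.mk.inj (hinj this)).1

lemma encard_range_le {α : Type*} {k : ℕ} (F : Fin k → α) : (Set.range F).encard ≤ k := by
  rw [← Set.image_univ]
  refine (Set.encard_image_le _ _).trans ?_
  rw [Set.encard_univ]
  simp

theorem card1 {n k : ℕ} (hn : 2 * k ≤ n) : (G1 n k).edgeSet.encard ≤ k := by
  have h : (G1 n k).edgeSet ⊆ Set.range (fun i : Fin k =>
      (s((⟨2 * (i : ℕ), by omega⟩ : Fin n), (⟨2 * (i : ℕ) + 1, by omega⟩ : Fin n)) :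
        Sym2 (Fin n))) := by
    intro x hx
    induction x using Sym2.ind with
    | _ u v =>
      rw [SimpleGraph.mem_edgeSet] at hx
      obtain ⟨h1, h2, h3, h4⟩ := hx
      have h1' : (u : ℕ) ≠ v := fun h => h1 (Fin.ext h)
      refine ⟨⟨(u : ℕ) / 2, by omega⟩, ?_⟩
      simp only [Sym2.eq_iff, Fin.ext_iff]
      omega
  exact (Set.encard_le_encard h).trans (encard_range_le _)

theorem card2 {n k : ℕ} (hn : 3 * k ≤ n) : (G2 n k).edgeSet.encard ≤ (2 * k : ℕ) := by
  have h : (G2 n k).edgeSet ⊆ Set.range (fun i : Fin (2 * k) =>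
      (s((⟨3 * ((i : ℕ) / 2) + 1, by omega⟩ : Fin n),
        (⟨3 * ((i : ℕ) / 2) + 2 * ((i : ℕ) % 2), by omega⟩ : Fin n)) : Sym2 (Fin n))) := by
    intro x hx
    induction x using Sym2.ind with
    | _ u v =>
      rw [SimpleGraph.mem_edgeSet] at hx
      obtain ⟨h1, h2, h3, h4, h5⟩ := hx
      have h1' : (u : ℕ) ≠ v := fun h => h1 (Fin.ext h)
      rcases h3 with h3 | h3
      · refine ⟨⟨2 * ((u : ℕ) / 3) + (v : ℕ) % 3 / 2, by omega⟩, ?_⟩
        simp only [Sym2.eq_iff, Fin.ext_iff]
        left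
        constructor <;> omega
      · refine ⟨⟨2 * ((u : ℕ) / 3) + (u : ℕ) % 3 / 2, by omega⟩, ?_⟩
        simp only [Sym2.eq_iff, Fin.ext_iff]
        right
        constructor <;> omega
  exact (Set.encard_le_encard h).trans (encard_range_le _)

/-- For every `r ≥ 3` and every `n ≥ 5 r - 4` the weak rainbow saturation number of the matching
`r K₂` is `r`, whereas the minimum over rainbow `r K₂`-free pairs is `2 (r - 1) > r`. -/
theorem result : ∀ r n : ℕ, 3 ≤ r → 5 * r - 4 ≤ n →
    rwsat n (matchingGraph r) = (r : ℕ∞) ∧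
      rwsatStar n (matchingGraph r) = ((2 * (r - 1) : ℕ) : ℕ∞) := by
  intro r n hr hn
  obtain ⟨s, rfl⟩ : ∃ s, r = s + 1 := ⟨r - 1, by omega⟩
  constructor
  · apply le_antisymm
    · refine (iInf_le_of_le (G1 n (s + 1)) (iInf_le_of_le (sumCol n)
        (iInf_le_of_le (sat1 (by omega)) ?_)))
      exact card1 (by omega)
    · refine le_iInf fun G => le_iInf fun χ => le_iInf fun h => ?_
      exact lower (by omega) (by omega) h
  · apply le_antisymm
    · refine (iInf_le_of_le (G2 n s) (iInf_le_of_le (sumCol n)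
        (iInf_le_of_le (sat2 (by omega)) (iInf_le_of_le free2 ?_))))
      exact card2 (by omega)
    · refine le_iInf fun G => le_iInf fun χ => le_iInf fun h => le_iInf fun h' => ?_
      exact lowerStar (by omega) (by omega) h h'

end Pool.Agent.Results.MP_e47ea7_co.MatchingGap
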